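import Pool.Agent.MVO.StmtsV
import Pool.Agent.Helper49_MVO.NEA

/-!
# Squad MVO, row NEV: necessity for class Va
-/

set_option autoImplicit false

namespace Pool.Agent.MVO.H72

open Pool.Agent.MVO Pool.Agent.Helper14_MV Pool.Agent.Helper2_MV

/-- **NEV** -/
theorem nev (nv1 : Nv1Stmt) (nv2 : Nv2Stmt) (nv3 : Nv3Stmt) (nv6 : Nv6Stmt) (nv7 : Nv7Stmt)
    (noo : NooStmt) : NevStmt := by
  intro β h3 hiso hcl hmod
  have hc := H49.cent_of h3 hmod
  have H : HypV β := ⟨h3, hiso, hcl, hmod, hc⟩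
  refine ⟨hc, ?_⟩
  by_cases hO3 : O3 (FC.ofFIC β)
  · exact Or.inr (Or.inr (Or.inl ⟨hO3, nv7 β H hO3⟩))
  by_cases hO1 : O1 (FC.ofFIC β)
  · refine Or.inl ⟨hO1, nv1 β H hO1 hO3, ?_⟩
    rcases nv2 β H hO1 hO3 with h | h
    · exact Or.inl h
    · rcases nv3 β H hO1 hO3 with h' | h'
      · exact Or.inl h'
      · exact Or.inr ⟨h, h'⟩
  rcases noo β h3 (H49.nc2_of hiso) hc hmod with h | h | h | h
  · exact absurd h hO1
  · exact Or.inr (Or.inl ⟨h, nv6 β H h hO1 hO3⟩)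
  · exact absurd h hO3
  · exact Or.inr (Or.inr (Or.inr h))

end Pool.Agent.MVO.H72
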