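import Pool.Agent.MVO.StmtsV
import Pool.Agent.Helper64_MVO.TVA
import Pool.Agent.Helper67_MVO.TCB
import Pool.Agent.Helper41_MVO.TAB
import Pool.Agent.Helper5_MVO.TAD

/-!
# Squad MVO, row TVB: tightness of class Va over `O2`
-/

set_option autoImplicit false

namespace Pool.Agent.MVO.H72

open Pool.Agent.Helper14_MV Pool.Agent.Helper2_MV Pool.Agent.MVO
open Pool.Agent.MVO.H65.TacRow (rr_mono mem_sp' exists_max tb bmap_tb psh_tb rp deg_rp pr_rp
  pr_sub_range card_pr_le pr_nonempty tr_sub tr_eq_self rp_rel)
open Pool.Agent.MVO.H67 (common tr_insert tr_card tr_tr rp_zero rp_ne_zero rp_one tc bmap_tc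
  psh_tc deg_two desc rel_of_jjd min_of push2 deg_eq_one two_eq rp_pair tr_one min_mem_tr)
open Pool.Agent.MVO.H41.TabRow (rv rv_rv deg_rv rev_of of_rev of_rev2 jj_rev to_sg a3_push a3_of
  jp_of bt_mono)
open Pool.Agent.MVO.H64.TvaRow (ve_mono vb5_lift vb4_vb5 sg_self sg_ne)

namespace TvbRow

theorem deg_sg {k l d : ℕ} (h : l ≤ k) : deg k (sg l d) = d := by
  unfold deg sg
  rw [Finset.sum_ite_eq']
  rw [if_pos (Finset.mem_range.2 (by omega))]

theorem exists_min {P : Finset ℕ} (h : P.Nonempty) : ∃ m ∈ P, ∀ j ∈ P, m ≤ j :=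
  ⟨P.min' h, Finset.min'_mem P h, fun j hj => Finset.min'_le P j hj⟩

theorem rp_single {m d : ℕ} (hd : 1 ≤ d) (j : ℕ) : rp {m} m d j = sg m d j := by
  unfold rp sg
  rw [Finset.card_singleton]
  by_cases h : j = m
  · rw [if_pos (Finset.mem_singleton.2 h), if_pos h, if_pos h]
    omega
  · rw [if_neg (fun h1 => h (Finset.mem_singleton.1 h1)), if_neg h, if_neg h]

theorem rp_top {P : Finset ℕ} {m d : ℕ} (hm : m ∈ P) (hd : P.card + 1 ≤ d) : 2 ≤ rp P m d m := by
  unfold rp
  rw [if_pos hm, if_pos rfl]
  omega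

theorem sg_rel (hoca : OcaStmt) {R : FC} (h3 : O3 R) {k m : ℕ} {A : ℕ → ℕ} (hd : 1 ≤ deg k A)
    (hm : pr k A = {m}) : R.R k A (sg m (deg k A)) := by
  have h1 : m ∈ pr k A := by rw [hm]; exact Finset.mem_singleton_self m
  have h2 := rp_rel hoca h3 h1 (fun j hj => by
    rw [hm, Finset.mem_singleton] at hj
    omega)
  rw [hm] at h2
  exact R.ext (fun _ _ => rfl) (fun j _ => rp_single hd j) h2

/-- the case analysis in reversed coordinates -/
theorem coreV (hoca : OcaStmt) (hocr : OcrStmt) {R : FC} (h3 : O3 R) {k I : ℕ} (hI : I ≤ k)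
    {A A' B : ℕ → ℕ} {G : Prop} (hdA : 3 ≤ deg k A) (hdd : deg k A = deg k A')
    (hdB : 2 ≤ deg k B) (hRR : R.R k A A') (hP : pr k A ≠ pr k A')
    (rule : ∀ C, R.R k A C → deg k C = deg k A → ¬ VR k C B I → G)
    (rule7 : ∀ P t s, P ≤ k → R.R k A (sg P (deg k A)) → 1 ≤ t → s + t = deg k A →
      R.R 1 (v2 0 (deg k A)) (v2 t s) → G)
    (h5 : ∀ j, I ∈ pr k A → (∀ l ∈ pr k A, I ≤ l) → I ∈ pr k A' → (∀ l ∈ pr k A', I ≤ l) →
      j < I → B j ≠ 0 → R.R k A (sg I (deg k A)) → G)
    (hX : ∀ c x, 2 ≤ c → tr c (pr k A) = tr c (pr k A') → c ≤ (pr k A).card →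
      c ≤ (pr k A').card → c + 1 ≤ deg k A → x ∈ tr c (pr k A) →
      (∀ y ∈ tr c (pr k A), y ≤ x) → I ∈ tr c (pr k A) → (∀ j ≤ k, x < j → B j = 0) →
      (∀ j ∈ tr c (pr k A), j ≠ I → B j = 0) → (I = x → B I ≤ 1) →
      R.R k A (rp (tr c (pr k A)) x (deg k A)) → G) : G := by
  obtain ⟨C1, C2, C3', C4, _⟩ := hocr R k A A' h3 (by omega) hdd hRR hP
  have hcdA : (pr k A).card ≤ deg k A := card_pr_le
  have hcdA' : (pr k A').card ≤ deg k A := by
    rw [hdd]
    exact card_pr_le
  obtain ⟨p, hp, hpp⟩ := exists_min (pr_nonempty (k := k) (a := A) (by omega))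
  obtain ⟨p', hp', hpp'⟩ := exists_min (pr_nonempty (k := k) (a := A') (by omega))
  have hpk : p ≤ k := by
    have := Finset.mem_range.1 (pr_sub_range hp)
    omega
  by_cases hpq : p = p'
  swap
  · -- different minima
    have hmin : (pr k A).min ≠ (pr k A').min := by
      rw [min_of hp hpp, min_of hp' hpp']
      intro h
      exact hpq (WithTop.coe_inj.1 h)
    have htr : ∀ m, 1 ≤ m → tr m (pr k A) ≠ tr m (pr k A') := by
      intro m hm he
      have e1 := tr_tr (P := pr k A) hm
      have e2 := tr_tr (P := pr k A') hm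
      rw [he, e2, tr_one hp hpp, tr_one hp' hpp'] at e1
      exact hpq (Finset.singleton_injective e1).symm
    by_cases hc1 : (pr k A).card = 1
    · obtain ⟨m, hm⟩ := Finset.card_eq_one.1 hc1
      have hmk : m ≤ k := by
        have : m ∈ pr k A := by rw [hm]; exact Finset.mem_singleton_self m
        have := Finset.mem_range.1 (pr_sub_range this)
        omega
      have hsg := sg_rel hoca h3 (by omega) hm
      by_cases hc2 : (pr k A').card = 1
      · exact rule7 m (deg k A) 0 hmk hsg (by omega) (by omega) (R.symm (C3' hmin hc1 hc2))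
      · exact rule7 m 1 (deg k A - 1) hmk hsg (by omega) (by omega)
          (C4 hmin (fun h => hc2 h.2))
    · have hB := C4 hmin (fun h => hc1 h.1)
      unfold B3 at hB
      have hcard2 : 2 ≤ (pr k A).card := by
        have := Finset.card_pos.2 ⟨p, hp⟩
        omega
      have hsub : tr 2 (pr k A) ⊆ Finset.range (k + 1) := tr_sub.trans pr_sub_range
      have hcd : (tr 2 (pr k A)).card = 2 := tr_card hcard2
      obtain ⟨l, hl, hll⟩ := exists_max (P := tr 2 (pr k A)) (Finset.card_pos.1 (by omega))
      have hIt : p ∈ tr 2 (pr k A) := min_mem_tr hp hpp (by omega)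
      obtain ⟨q, hq, hqq, hTp⟩ := two_eq hl hll (by omega)
      have hqI : q = p := by
        have h1 := hqq p hIt
        have h2 := hpp q (tr_sub hq)
        omega
      rw [hqI] at hTp
      have hIl : p ≠ l := by
        intro h
        rw [hTp, h] at hcd
        simp at hcd
      have hlk : l ≤ k := by
        have := Finset.mem_range.1 (hsub hl)
        omega
      have hIl' : p < l := by
        have := hll p hIt
        omega
      have e1 : R.R k A (rp (tr 2 (pr k A)) l (deg k A)) :=
        desc hoca h3 (le_refl 2) k (deg k A) ((pr k A).card - 2) A (by omega) rfl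
          (fun m hm _ hm2 => C1 m hm (htr m (by omega)) (Or.inl (by omega))) _
          (deg_rp hsub hl (by omega)) (pr_rp hsub hl hll)
      have e2 : R.R k A (fun j => (if j = p then 1 else 0) +
          (if j = l then deg k A - 1 else 0)) := by
        refine R.ext (fun _ _ => rfl) ?_ e1
        intro j _
        rw [hTp]
        exact rp_pair hIl (by omega) j
      have e3 := push2 (k := k) hIl'.le hlk hB
      have e4 : R.R k A (sg l (deg k A)) := by
        refine R.trans e2 (R.symm (R.ext ?_ (fun _ _ => rfl) e3))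
        intro j _
        unfold sg
        rw [ite_self, Nat.zero_add]
      exact rule7 l 1 (deg k A - 1) hlk e4 (by omega) (by omega) hB
  subst hpq
  have hmin : (pr k A).min = (pr k A').min := by
    rw [min_of hp hpp, min_of hp' hpp']
  obtain ⟨c, he, hne, hcP, hcP', hN⟩ := common hP
  have hc1 : 1 ≤ c := by
    by_contra h1
    exact hne 1 (by omega) (by rw [tr_one hp hpp, tr_one hp' hpp'])
  by_cases hc2 : c = 1
  · have hA := C2 hmin (hne 2 (by omega))
    have hsg : R.R k A (sg p (deg k A)) :=
      to_sg h3 rfl (by omega) hA (fun m hm hm' => C1 m hm (hne m (by omega)) (Or.inl hm')) hp hpp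
    by_cases hpI : I = p
    swap
    · refine rule _ hsg (deg_sg hpk) ?_
      rintro ⟨_, h, _⟩
      rw [sg_ne hpI] at h
      omega
    subst hpI
    by_cases hj : ∃ j ≤ k, I < j ∧ B j ≠ 0
    · obtain ⟨j, hjk, hIj, hBj⟩ := hj
      have h6 := a3_push (k := k) hA hIj.le hjk
      have h7 : ∀ t, psh 1 (tb I j) (v2 1 (deg k A - 1)) t =
          (if t = I then 1 else 0) + (if t = j then deg k A - 1 else 0) := fun t =>
        psh_tb I j 1 (deg k A - 1) t
      refine rule _ (R.trans hsg h6) ?_ ?_
      · rw [show deg k (psh 1 (tb I j) (v2 1 (deg k A - 1))) =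
            deg k (fun t => (if t = I then 1 else 0) + (if t = j then deg k A - 1 else 0)) from by
          congr 1
          funext t
          exact h7 t, deg_two hI hjk]
        omega
      · rintro ⟨h8, _⟩
        rcases h8 j hjk (by omega) with h9 | h9
        · rw [h7, if_neg (by omega), if_pos rfl] at h9
          omega
        · exact hBj h9
    · push Not at hj
      by_cases hB2 : 2 ≤ B I
      · refine rule _ hsg (deg_sg hpk) ?_
        rintro ⟨_, _, _, h⟩
        rw [sg_self] at h
        omega
      obtain ⟨j, hjI, hBj⟩ : ∃ j < I, B j ≠ 0 := by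
        by_contra hcon
        push Not at hcon
        have h1 := deg_eq_one (B := B) hI (by
          intro j hjk hji
          rcases Nat.lt_or_gt_of_ne hji with h | h
          · exact hcon j h
          · exact hj j hjk h)
        omega
      exact h5 j hp hpp hp' hpp' hjI hBj hsg
  have hc : 2 ≤ c := by omega
  have hdc : c + 1 ≤ deg k A := by omega
  have hsub : tr c (pr k A) ⊆ Finset.range (k + 1) := tr_sub.trans pr_sub_range
  have hcd : (tr c (pr k A)).card = c := tr_card hcP
  obtain ⟨x, hx, hxx⟩ := exists_max (P := tr c (pr k A)) (Finset.card_pos.1 (by omega))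
  have hrX : R.R k A (rp (tr c (pr k A)) x (deg k A)) :=
    desc hoca h3 hc k (deg k A) ((pr k A).card - c) A (by omega) rfl
      (fun m hm hm1 hm2 => C1 m hm (hne m hm1) (Or.inl (by omega))) _
      (deg_rp hsub hx (by omega)) (pr_rp hsub hx hxx)
  have hdX : deg k (rp (tr c (pr k A)) x (deg k A)) = deg k A := deg_rp hsub hx (by omega)
  by_cases hIX : I ∈ tr c (pr k A)
  swap
  · refine rule _ hrX hdX ?_
    rintro ⟨_, h, _⟩
    rw [rp_zero hx hIX] at h
    omega
  by_cases hj : ∃ j ≤ k, x < j ∧ B j ≠ 0
  · obtain ⟨q0, hq0k, hqx, hBq0⟩ := hj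
    have hj : ∀ y ∈ tr c (pr k A), y < q0 := fun y hy => lt_of_le_of_lt (hxx y hy) hqx
    have hq0X : q0 ∉ tr c (pr k A) := fun h => lt_irrefl _ (hj _ h)
    have hsub' : insert q0 (tr c (pr k A)) ⊆ Finset.range (k + 1) := by
      intro y hy
      rcases Finset.mem_insert.1 hy with h | h
      · rw [h, Finset.mem_range]
        omega
      · exact hsub h
    have hcd' : (insert q0 (tr c (pr k A))).card = c + 1 := by
      rw [Finset.card_insert_of_notMem hq0X, hcd]
    have hins := Finset.mem_insert_self q0 (tr c (pr k A))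
    have hmx : ∀ y ∈ insert q0 (tr c (pr k A)), y ≤ q0 := by
      intro y hy
      rcases Finset.mem_insert.1 hy with h | h
      · omega
      · exact (hj y h).le
    have hdC : deg k (rp (insert q0 (tr c (pr k A))) q0 (deg k A)) = deg k A :=
      deg_rp hsub' hins (by omega)
    have hpC : pr k (rp (insert q0 (tr c (pr k A))) q0 (deg k A)) =
        insert q0 (tr c (pr k A)) := pr_rp hsub' hins hmx
    have hJ := C1 (c + 1) (by omega) (hne (c + 1) (by omega)) hN k
      (rp (insert q0 (tr c (pr k A))) q0 (deg k A)) (rp (tr c (pr k A)) x (deg k A)) hdC hdX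
      (by rw [hpC, hcd']) (by
        rw [hpC, pr_rp hsub hx hxx, Nat.add_sub_cancel]
        have h1 := tr_insert (X := tr c (pr k A)) (j := q0) hj
        rw [hcd] at h1
        exact h1.symm)
    have hIq : q0 ≠ I := by
      have := hj I hIX
      omega
    refine rule _ (R.trans hrX (R.symm hJ)) hdC ?_
    rintro ⟨g, _⟩
    rcases g q0 hq0k hIq with h | h
    · exact rp_ne_zero hins h
    · exact hBq0 h
  by_cases hjX : ∃ j ∈ tr c (pr k A), j ≠ I ∧ B j ≠ 0
  · obtain ⟨j, hjX, hjI, hBj⟩ := hjX
    refine rule _ hrX hdX ?_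
    rintro ⟨g, _⟩
    have hjk : j ≤ k := by
      have := Finset.mem_range.1 (hsub hjX)
      omega
    rcases g j hjk hjI with h | h
    · exact rp_ne_zero hjX h
    · exact hBj h
  by_cases hIx : I = x ∧ 2 ≤ B I
  · refine rule _ hrX hdX ?_
    rintro ⟨_, _, _, h⟩
    have h8 : 2 ≤ rp (tr c (pr k A)) x (deg k A) I := by
      rw [hIx.1]
      exact rp_top hx (by omega)
    have h9 := hIx.2
    omega
  push Not at hj hjX
  exact hX c x hc he hcP hcP' hdc hx hxx hIX hj hjX
    (fun h => by by_contra h1; exact hIx ⟨h, by omega⟩) hrX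

theorem deg_v3 (p q r : ℕ) : deg 2 (v3 p q r) = p + q + r := by
  unfold deg
  rw [Finset.sum_range_succ, Finset.sum_range_succ, Finset.sum_range_succ,
    Finset.sum_range_zero, Nat.zero_add]
  simp [v3]

/-- domination with three blocks -/
theorem lift3 (fv4 : Fv4Stmt) {ρ : FIC} (hv : MVD.Ve ρ) {k p q r u v w u' v' w' m : ℕ}
    {A B : ℕ → ℕ} (hpq : p ≤ q) (hqr : q ≤ r) (hr : r ≤ k) (hm : m ≤ 2)
    (h1 : 1 ≤ v3 u v w m) (h2 : 1 ≤ v3 u' v' w' m) (hd : 2 ≤ u + v + w)
    (hd' : 2 ≤ u' + v' + w')
    (hl : ∀ l ≤ 2, m < l → tc p q r l = tc p q r m → v3 u v w l = 0 ∧ v3 u' v' w' l = 0)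
    (hA : ∀ j, (if j = p then u else 0) + (if j = q then v else 0) +
      (if j = r then w else 0) ≤ A j)
    (hB : ∀ j, (if j = p then u' else 0) + (if j = q then v' else 0) +
      (if j = r then w' else 0) ≤ B j)
    (h : Bt ρ 2 (v3 u v w) (v3 u' v' w') m) : Bt ρ k A B (tc p q r m) := by
  refine fv4 ρ hv 2 k (tc p q r) (v3 u v w) (v3 u' v' w') A B m (bmap_tc hpq hqr hr) hm h1 h2
    (by rw [deg_v3]; exact hd) (by rw [deg_v3]; exact hd') hl ?_ ?_ h
  · intro j _
    rw [psh_tc]
    exact hA j
  · intro j _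
    rw [psh_tc]
    exact hB j

theorem three_le {p q r u v w : ℕ} {C : ℕ → ℕ} (hpq : p < q) (hqr : q < r) (hp : u ≤ C p)
    (hq : v ≤ C q) (hr : w ≤ C r) (j : ℕ) :
    (if j = p then u else 0) + (if j = q then v else 0) + (if j = r then w else 0) ≤ C j := by
  by_cases e1 : j = p
  · rw [if_pos e1, if_neg (by omega), if_neg (by omega), e1]
    omega
  · rw [if_neg e1]
    by_cases e2 : j = q
    · rw [if_pos e2, if_neg (by omega), e2]
      omega
    · rw [if_neg e2]
      by_cases e3 : j = r
      · rw [if_pos e3, e3]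
        omega
      · rw [if_neg e3]
        omega

theorem two_le {p q u v w : ℕ} {C : ℕ → ℕ} (hpq : p < q) (hp : u ≤ C p)
    (hq : v + w ≤ C q) (j : ℕ) :
    (if j = p then u else 0) + (if j = q then v else 0) + (if j = q then w else 0) ≤ C j := by
  by_cases e1 : j = p
  · rw [if_pos e1, if_neg (by omega), if_neg (by omega), e1]
    omega
  · rw [if_neg e1]
    by_cases e2 : j = q
    · rw [if_pos e2, if_pos e2, e2]
      omega
    · rw [if_neg e2, if_neg e2]
      omega

end TvbRow

open TvbRow

/-- **TVB** -/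
theorem tvb (hopf : OpfStmt) (hoca : OcaStmt) (hocr : OcrStmt) (fv1 : Fv1Stmt) (fv4 : Fv4Stmt)
    (fv7 : Fv7Stmt) (t2v : T2vStmt) : TvbStmt := by
  intro β hvβ ho2 hcl ρ hle _ k a a' hd hdd hL
  by_cases hLβ : L1 β k a a'
  · exact Or.inl hLβ
  right
  intro b e hb i hi
  revert e
  change Bt ρ k a b i
  have hv : MVD.Ve ρ := ve_mono hle hvβ
  by_cases hd2 : deg k a = 2
  · refine t2v ρ hv k a a' b i hd2 (by omega) hb hi hL ?_
    intro hs
    apply hLβ
    have h1 := H5.eq_of_deg_two hd2 (by omega : deg k a' = 2) hs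
    have h2 := H5.eq_of_deg_two (by omega : deg k a' = 2) hd2 hs.symm
    refine (FC.ofFIC β).ext (fun _ _ => rfl) ?_ ((FC.ofFIC β).refl k a)
    intro j hj
    have := h1 j hj
    have := h2 j hj
    omega
  have hd3 : 3 ≤ deg k a := by omega
  obtain ⟨V0, V2, V5⟩ := fv1 ρ hv
  by_cases hVR : VR k a b i
  swap
  · exact V0 k a b i hd hb hi hVR
  obtain ⟨-, hai, hbi, -⟩ := hVR
  obtain ⟨Rr, hRr, hRr3⟩ := hopf (FC.ofFIC ρ)
  obtain ⟨Sβ, hSβ, hSβ3⟩ := hopf (FC.ofFIC β)
  have hRr' : ∀ k a b, Rr.R k a b ↔ (FC.ofFIC ρ).R k (rv k a) (rv k b) := hRr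
  have hSβ' : ∀ k a b, Sβ.R k a b ↔ (FC.ofFIC β).R k (rv k a) (rv k b) := hSβ
  have h3ρ : O3 Rr := hRr3 (rr_mono hle ho2)
  have h3β : O3 Sβ := hSβ3 ho2
  have hPP : pr k (rv k a) ≠ pr k (rv k a') := by
    intro he
    apply hLβ
    exact of_rev2 hSβ' (hoca Sβ k _ _ h3β (by rw [deg_rv, deg_rv, hdd]) he)
  have hrel : Rr.R k (rv k a) (rv k a') := rev_of hRr' hL
  have hI : k - i ≤ k := Nat.sub_le k i
  have hII : k - (k - i) = i := by omega
  -- the reversed relation `VR`
  have hvr : ∀ C : ℕ → ℕ, VR k (rv k C) b i → VR k C (rv k b) (k - i) := by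
    rintro C ⟨g1, g2, g3, g4⟩
    refine ⟨?_, ?_, ?_, ?_⟩
    · intro j hj hji
      have h1 := g1 (k - j) (Nat.sub_le k j) (by omega)
      have e : rv k C (k - j) = C j := by
        show C (k - (k - j)) = C j
        rw [show k - (k - j) = j by omega]
      rw [e] at h1
      exact h1
    · exact g2
    · show 1 ≤ b (k - (k - i))
      rw [hII]
      exact g3
    · rcases g4 with g | g
      · exact Or.inl g
      · right
        show b (k - (k - i)) = 1
        rw [hII]
        exact g
  have rule : ∀ C, Rr.R k (rv k a) C → deg k C = deg k (rv k a) → ¬ VR k C (rv k b) (k - i) →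
      Bt ρ k a b i := by
    intro C h1 h2 h3
    refine V2 k a (rv k C) b i (of_rev hRr' h1) (V0 k (rv k C) b i ?_ hb hi
      (fun h => h3 (hvr C h)))
    rw [deg_rv, h2, deg_rv]
    exact hd
  have hsgrv : ∀ P d, P ≤ k → ∀ j ≤ k, rv k (sg P d) j = sg (k - P) d j := by
    intro P d hP j hj
    unfold rv sg
    by_cases e : j = k - P
    · rw [if_pos (by omega), if_pos e]
    · rw [if_neg (by omega), if_neg e]
  have hsgof : ∀ P, P ≤ k → Rr.R k (rv k a) (sg P (deg k (rv k a))) →
      L1 ρ k a (sg (k - P) (deg k a)) := by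
    intro P hP h
    rw [deg_rv] at h
    exact (FC.ofFIC ρ).ext (fun _ _ => rfl) (hsgrv P _ hP) (of_rev hRr' h)
  refine coreV hoca hocr h3ρ hI (A := rv k a) (A' := rv k a') (B := rv k b)
    (by rw [deg_rv]; exact hd3) (by rw [deg_rv, deg_rv, hdd]) (by rw [deg_rv]; exact hb) hrel hPP
    rule ?_ ?_ ?_
  · -- `rule7`
    intro P t s hP h1 h2 h3 h4
    rw [deg_rv] at h3 h4
    have h6 : L1 ρ 1 (v2 (deg k a) 0) (v2 s t) := by
      refine (FC.ofFIC ρ).ext ?_ ?_ ((hRr' _ _ _).1 h4)
      · intro j hj
        unfold rv v2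
        by_cases e : j = 0
        · rw [if_neg (by omega), if_pos (by omega), if_pos e]
        · rw [if_pos (by omega), if_neg e, if_pos (by omega)]
      · intro j hj
        unfold rv v2
        by_cases e : j = 0
        · rw [if_neg (by omega), if_pos (by omega), if_pos e]
        · rw [if_pos (by omega), if_neg e, if_pos (by omega)]
    exact V2 k a _ b i (hsgof P hP h1) (fv7 ρ hv k (k - P) (deg k a) s t b i (Nat.sub_le k P) hi
      hd h3 h2 hb h6)
  · -- `c = 1`
    intro j g1 g2 g3 g4 g5 g6 g7
    have hbj : 1 ≤ b (k - j) := Nat.one_le_iff_ne_zero.2 g6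
    have claim : Vb5 β := by
      rcases hcl.1 with h1 | h1
      · have hJJ : ¬ JJ (FC.ofFIC β) := by
          intro h2
          apply hLβ
          have hS1 : Sβ.R 1 (v2 2 1) (v2 1 2) := by
            refine Sβ.symm (Sβ.ext ?_ ?_ (rev_of hSβ' h1))
            · intro j hj
              unfold rv v2
              by_cases e : j = 0
              · rw [if_pos e, if_neg (by omega), if_pos (by omega)]
              · rw [if_neg e, if_pos (by omega), if_pos (by omega)]
            · intro j hj
              unfold rv v2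
              by_cases e : j = 0
              · rw [if_pos e, if_neg (by omega), if_pos (by omega)]
              · rw [if_neg e, if_pos (by omega), if_pos (by omega)]
          have hSA : A3 Sβ (deg k a) := a3_of h3β hS1 hd3
          have hSJ : ∀ m, 3 ≤ m → JP Sβ m (deg k a) := fun m hm =>
            jp_of h3β (jj_rev hSβ' h2) hm
          have f1 : Sβ.R k (rv k a) (sg (k - i) (deg k a)) :=
            to_sg h3β (by rw [deg_rv]) hd hSA (fun m hm _ => hSJ m hm) g1 g2
          have f2 : Sβ.R k (rv k a') (sg (k - i) (deg k a)) :=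
            to_sg h3β (by rw [deg_rv, hdd]) hd hSA (fun m hm _ => hSJ m hm) g3 g4
          exact of_rev2 hSβ' (Sβ.trans f1 (Sβ.symm f2))
        exact vb4_vb5 fv4 hvβ (hcl.2.resolve_left hJJ).2.2.2
      · exact h1
    have h1 := hsgof (k - i) hI g7
    rw [hII] at h1
    exact V2 k a _ b i h1 (vb5_lift fv4 hv (bt_mono hle claim) (l := i) (j := k - j) (by omega)
      (Nat.sub_le k j) hd3 hbi hbj)
  · -- `c ≥ 2`
    intro c x hc he hcP hcP' hdc hx hxx hIX hBx hBX hBI hrX
    have hnJ : ¬ JJ (FC.ofFIC β) := by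
      intro h2
      apply hLβ
      exact of_rev2 hSβ' (rel_of_jjd hoca h3β (jj_rev hSβ' h2) hc
        (by rw [deg_rv, deg_rv, hdd]) hcP hcP' he)
    obtain ⟨c1, c2, c3, c4⟩ := hcl.2.resolve_left hnJ
    have d1 : Vc1 ρ := bt_mono hle c1
    have d2 : Vc2 ρ := bt_mono hle c2
    have d3 : Vc3 ρ := bt_mono hle c3
    have d4 : Vb4 ρ := bt_mono hle c4
    rw [deg_rv] at hrX hdc
    have hsub : tr c (pr k (rv k a)) ⊆ Finset.range (k + 1) := tr_sub.trans pr_sub_range
    have hcd : (tr c (pr k (rv k a))).card = c := tr_card hcP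
    have hxk : x ≤ k := by
      have := Finset.mem_range.1 (hsub hx)
      omega
    have haX : L1 ρ k a (rv k (rp (tr c (pr k (rv k a))) x (deg k a))) := of_rev hRr' hrX
    obtain ⟨w, hw⟩ : ∃ w : ℕ → ℕ, w = rv k (rp (tr c (pr k (rv k a))) x (deg k a)) := ⟨_, rfl⟩
    rw [← hw] at haX
    refine V2 k a w b i haX ?_
    have hwx : 2 ≤ w (k - x) := by
      rw [hw]
      show 2 ≤ rp (tr c (pr k (rv k a))) x (deg k a) (k - (k - x))
      rw [show k - (k - x) = x by omega]
      exact rp_top hx (by omega)
    have hwX : ∀ y ∈ tr c (pr k (rv k a)), 1 ≤ w (k - y) := by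
      intro y hy
      have hyk : y ≤ k := by
        have := Finset.mem_range.1 (hsub hy)
        omega
      rw [hw]
      show 1 ≤ rp (tr c (pr k (rv k a))) x (deg k a) (k - (k - y))
      rw [show k - (k - y) = y by omega]
      exact Nat.one_le_iff_ne_zero.2 (rp_ne_zero hy)
    have hwi : 1 ≤ w i := by
      have := hwX _ hIX
      rw [hII] at this
      exact this
    have hIx : k - i ≤ x := hxx _ hIX
    -- where `b` lives
    have hbx : ∀ j, j < k - x → b j = 0 := by
      intro j hj
      have h1 := hBx (k - j) (Nat.sub_le k j) (by omega)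
      have h2 : b (k - (k - j)) = 0 := h1
      rw [show k - (k - j) = j by omega] at h2
      exact h2
    have hbX : ∀ j ≤ k, k - j ∈ tr c (pr k (rv k a)) → j ≠ i → b j = 0 := by
      intro j hj h1 h2
      have h3 := hBX (k - j) h1 (by omega)
      have h4 : b (k - (k - j)) = 0 := h3
      rw [show k - (k - j) = j by omega] at h4
      exact h4
    by_cases hix : k - i = x
    · -- `i = k - x`
      have hbi1 : b i = 1 := by
        have h1 := hBI hix
        have h2 : b (k - (k - i)) ≤ 1 := h1
        rw [hII] at h2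
        omega
      obtain ⟨j, hjk, hji, hbj⟩ : ∃ j ≤ k, j ≠ i ∧ 1 ≤ b j := by
        by_contra hcon
        push Not at hcon
        have h1 := deg_eq_one (B := b) hi (fun j hj hji => by
          have := hcon j hj hji
          omega)
        omega
      have hij : i < j := by
        by_contra h1
        have := hbx j (by omega)
        omega
      -- another element of `X`
      obtain ⟨l, hl, hll⟩ := exists_min (P := tr c (pr k (rv k a)))
        (Finset.card_pos.1 (by omega))
      have hlx : l < x := by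
        have h1 := hll x hx
        rcases h1.lt_or_eq with h2 | h2
        · exact h2
        · exfalso
          have h3 : tr c (pr k (rv k a)) ⊆ {x} := by
            intro y hy
            have h4 := hll y hy
            have h6 := hxx y hy
            rw [Finset.mem_singleton]
            omega
          have h4 := Finset.card_le_card h3
          rw [Finset.card_singleton] at h4
          omega
      have hwl : 1 ≤ w (k - l) := hwX l hl
      have hwi2 : 2 ≤ w i := by
        have h1 : k - x = i := by omega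
        rw [h1] at hwx
        exact hwx
      have hjl : j ≠ k - l := by
        intro h1
        have h2 : k - j = l := by omega
        have h3 := hbX j hjk (by rw [h2]; exact hl) (by omega)
        omega
      rcases Nat.lt_or_gt_of_ne hjl with h1 | h1
      · have h2 := lift3 fv4 hv (k := k) (p := i) (q := j) (r := k - l) (m := 0) (A := w) (B := b)
          hij.le h1.le (Nat.sub_le k l) (by omega) (by show 1 ≤ 2; omega) (by show 1 ≤ 1; omega)
          (by omega) (by omega) (by
            intro t ht1 ht2 ht3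
            exfalso
            unfold tc at ht3
            have h6 : t = 1 ∨ t = 2 := by omega
            rcases h6 with h6 | h6 <;> subst h6 <;> simp at ht3 <;> omega)
          (three_le hij h1 hwi2 (Nat.zero_le _) hwl)
          (three_le hij h1 hbi hbj (Nat.zero_le _)) d2
        exact h2
      · have h2 := lift3 fv4 hv (k := k) (p := i) (q := k - l) (r := j) (m := 0) (A := w) (B := b)
          (by omega) h1.le hjk (by omega) (by show 1 ≤ 2; omega) (by show 1 ≤ 1; omega)
          (by omega) (by omega) (by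
            intro t ht1 ht2 ht3
            exfalso
            unfold tc at ht3
            have h6 : t = 1 ∨ t = 2 := by omega
            rcases h6 with h6 | h6 <;> subst h6 <;> simp at ht3 <;> omega)
          (three_le (by omega) h1 hwi2 hwl (Nat.zero_le _))
          (three_le (by omega) h1 hbi (Nat.zero_le _) hbj) d1
        exact h2
    · have hxi : k - x < i := by omega
      by_cases hj1 : ∃ j, k - x < j ∧ j < i ∧ 1 ≤ b j
      · obtain ⟨j, hxj, hji, hbj⟩ := hj1
        have h2 := lift3 fv4 hv (k := k) (p := k - x) (q := j) (r := i) (m := 2) (A := w) (B := b)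
          hxj.le hji.le hi (by omega) (by show 1 ≤ 1; omega) (by show 1 ≤ 1; omega)
          (by omega) (by omega) (fun t ht1 ht2 => by omega)
          (three_le hxj hji hwx (Nat.zero_le _) hwi)
          (three_le hxj hji (Nat.zero_le _) hbj hbi) d3
        exact h2
      by_cases hj2 : ∃ j ≤ k, i < j ∧ 1 ≤ b j
      · obtain ⟨j, hjk, hij, hbj⟩ := hj2
        have h2 := lift3 fv4 hv (k := k) (p := k - x) (q := i) (r := j) (m := 1) (A := w) (B := b)
          hxi.le hij.le hjk (by omega) (by show 1 ≤ 1; omega) (by show 1 ≤ 1; omega)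
          (by omega) (by omega) (by
            intro t ht1 ht2 ht3
            exfalso
            unfold tc at ht3
            have h6 : t = 2 := by omega
            subst h6
            simp at ht3
            omega)
          (three_le hxi hij hwx hwi (Nat.zero_le _))
          (three_le hxi hij (Nat.zero_le _) hbi hbj) d4
        exact h2
      have hb2 : 2 ≤ b i := by
        have h1 := deg_eq_one (B := b) hi (by
          intro j hj hji
          rcases Nat.lt_or_gt_of_ne hji with h | h
          · by_cases h6 : j < k - x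
            · exact hbx j h6
            · by_cases h7 : j = k - x
              · exact hbX j hj (by rw [h7, show k - (k - x) = x by omega]; exact hx) hji
              · by_contra h8
                exact hj1 ⟨j, by omega, h, by omega⟩
          · by_contra h8
            exact hj2 ⟨j, hj, h, by omega⟩)
        omega
      have h2 := lift3 fv4 hv (k := k) (p := k - x) (q := i) (r := i) (m := 2) (A := w) (B := b)
        hxi.le le_rfl hi (by omega) (by show 1 ≤ 1; omega) (by show 1 ≤ 1; omega)
        (by omega) (by omega) (fun t ht1 ht2 => by omega)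
        (two_le hxi hwx (by omega))
        (two_le hxi (Nat.zero_le _) (by omega)) d3
      exact h2

end Pool.Agent.MVO.H72
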