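import Pool.Agent.MVO.StmtsE

/-!
# Squad MVO, row ALT: change of the type of one letter
-/

set_option autoImplicit false

namespace Pool.Agent.MVO.H72

open Pool.Agent.MVO Pool.Agent.Helper14_MV Pool.Agent.Helper2_MV

/-- the shape of a list in which `c` is gathered -/
def Shape (c : ℕ) (L G : List ℕ) : Prop :=
  ∃ P Q : List ℕ, P ++ Q = L.filter (fun d => d ≠ c) ∧
    G = P ++ List.replicate (L.count c) c ++ Q

theorem shape_gF (c : ℕ) (L : List ℕ) : Shape c L (gF c L) := by
  refine ⟨L.takeWhile (fun d => d ≠ c), (L.dropWhile (fun d => d ≠ c)).filter (fun d => d ≠ c),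
    ?_, rfl⟩
  have h1 : (L.takeWhile (fun d => decide (d ≠ c))).filter (fun d => decide (d ≠ c)) =
      L.takeWhile (fun d => decide (d ≠ c)) := by
    rw [List.filter_eq_self]
    intro a ha
    exact List.mem_takeWhile_imp (p := fun d => decide (d ≠ c)) ha
  have h2 := congrArg (List.filter (fun d => decide (d ≠ c)))
    (List.takeWhile_append_dropWhile (p := fun d => decide (d ≠ c)) (l := L))
  rw [List.filter_append, h1] at h2
  exact h2

theorem shape_gL (c : ℕ) (L : List ℕ) : Shape c L (gL c L) := by
  obtain ⟨P, Q, h1, h2⟩ := shape_gF c L.reverse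
  refine ⟨Q.reverse, P.reverse, ?_, ?_⟩
  · rw [← List.reverse_append, h1, List.filter_reverse, List.reverse_reverse]
  · unfold gL
    rw [h2, List.reverse_append, List.reverse_append, List.reverse_replicate, List.count_reverse,
      List.append_assoc]

theorem shape_gA (c M : ℕ) (B : ℕ → List ℕ) (j : ℕ) : Shape c (B j) (gA c M B j) := by
  unfold gA
  split
  · exact shape_gF c (B j)
  · exact shape_gL c (B j)

theorem flatMap_rep (m c : ℕ) :
    (List.replicate m 0).flatMap (fun _ => [c]) = List.replicate m c := by
  induction m with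
  | zero => rfl
  | succ m ih => rw [List.replicate_succ, List.flatMap_cons, ih]; rfl

theorem ns_zero (k : ℕ) : NS k 0 := fun h => by have := h.1; omega

theorem blkOk_mw (k : ℕ) (a : ℕ → ℕ) : BlkOk k (fun j => List.replicate (a j) 0) := by
  intro j _ d hd
  rw [(List.mem_replicate.1 hd).2]
  exact ns_zero k

/-- **ALT** -/
theorem alt (gla : GlaStmt) : AltStmt := by
  intro ω hcc hE k B c a' hB hA hc h3 hL
  -- the last block which contains `c`
  have hex : ∃ M ≤ k, c ∈ B M := by
    by_contra hcon
    have h0 : deg k (fun j => (B j).count c) = 0 := by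
      unfold deg
      refine Finset.sum_eq_zero fun j hj => ?_
      rw [List.count_eq_zero]
      intro hcj
      exact hcon ⟨j, by have := Finset.mem_range.1 hj; omega, hcj⟩
    omega
  classical
  obtain ⟨M0, hM0, hcM0⟩ := hex
  have hspec : c ∈ B (Nat.findGreatest (fun j => c ∈ B j) k) :=
    Nat.findGreatest_spec (P := fun j => c ∈ B j) hM0 hcM0
  have hle : Nat.findGreatest (fun j => c ∈ B j) k ≤ k := Nat.findGreatest_le k
  have hmax : ∀ j ≤ k, Nat.findGreatest (fun j => c ∈ B j) k < j → c ∉ B j := by
    intro j hj hlt hcj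
    have := Nat.le_findGreatest (P := fun j => c ∈ B j) hj hcj
    omega
  have h1 := gla ω hcc k B c _ hB hA hc hle hspec hmax (Or.inr ⟨hE, h3⟩)
  choose P Q hPQ hG using fun j =>
    shape_gA c (Nat.findGreatest (fun j => c ∈ B j) k) B j
  have hcP : ∀ j, c ∉ P j ∧ c ∉ Q j := by
    intro j
    have h2 : c ∉ P j ++ Q j := by
      rw [hPQ j, List.mem_filter]
      intro h
      simpa using h.2
    rw [List.mem_append, not_or] at h2
    exact h2
  have h2 := rr_ins ω P Q (fun _ => [c]) (blkOk_mw k (fun j => (B j).count c)) (blkOk_mw k a') hL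
  simp only [flatMap_rep] at h2
  have h3' : (fun j => P j ++ List.replicate ((B j).count c) c ++ Q j) =
      gA c (Nat.findGreatest (fun j => c ∈ B j) k) B := by
    funext j
    exact (hG j).symm
  rw [h3'] at h2
  refine ⟨fun j => P j ++ List.replicate (a' j) c ++ Q j, ?_, ω.trans h1 h2, ?_, ?_⟩
  · intro j hj d hd
    have h4 : d ∈ P j ++ Q j ∨ d = c := by
      rw [List.mem_append, List.mem_append] at hd
      rw [List.mem_append]
      rcases hd with (h | h) | h
      · exact Or.inl (Or.inl h)
      · exact Or.inr (List.mem_replicate.1 h).2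
      · exact Or.inl (Or.inr h)
    rcases h4 with h4 | h4
    · rw [hPQ j, List.mem_filter] at h4
      exact hB j hj d h4.1
    · rw [h4]; exact hc
  · intro j _
    show (P j ++ List.replicate (a' j) c ++ Q j).count c = a' j
    rw [List.count_append, List.count_append, List.count_eq_zero.2 (hcP j).1,
      List.count_eq_zero.2 (hcP j).2, List.count_replicate_self]
    omega
  · intro j _
    show (P j ++ List.replicate (a' j) c ++ Q j).filter (fun d => d ≠ c) = _
    have h5 : (List.replicate (a' j) c).filter (fun d => decide (d ≠ c)) = [] := by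
      rw [List.filter_eq_nil_iff]
      intro d hd
      rw [(List.mem_replicate.1 hd).2]
      simp
    have h6 : ((P j ++ Q j).filter (fun d => decide (d ≠ c))) = P j ++ Q j := by
      rw [hPQ j, List.filter_filter]
      simp
    rw [List.filter_append, List.filter_append, h5, List.append_nil, ← List.filter_append, h6,
      hPQ j]

end Pool.Agent.MVO.H72
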